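import Pool.Agent.Run7.h204.PenMain

/-!
The Penrose inequality for initial data with several ends, whose exterior region is foliated by
round spheres with arbitrary lapse. The definitions are in `Pool.Agent.Run7.h204.PenDefs` and
`Pool.Agent.H498R3.GBDefs`.
-/

namespace Pool.Agent.Results.MP_ede089_mp.QuasiSphericalExterior

open Run7.h204.Pen

/-- Initial data `(g, h)` on `ℝ³ ∖ F`, asymptotically flat, `μ ≥ |J|`. For `|x| > R₀` the metric is
`φ(|x|²) δ + G(x) x ⊗ x` with arbitrary `G`, and every sphere `S : |x| = r > R₀` which is not weakly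
trapped has a point at which `G` and `|tr_S h|` are minimal and
`(tr_S h) (div β) / √(det g) + H (2 |h(ν, ·)|² + |h°|²) / 2 ≥ 0` (for instance `div β = 0`). Some
sphere `|x| = r > R₀` is weakly trapped, or `F = {0}` and `R₀ = 0`. Then `A` is finite and
`√(A / 16π) ≤ m`. -/
theorem result (F : Finset E3) (g h : Field) (R₀ : ℝ) (φ : ℝ → ℝ) (G : E3 → ℝ) (m : ℝ)
    (hdata : IsInitialData F g h) (hflat : AsymptoticallyFlat F g h)
    (hdec : DominantEnergy F g h) (hR : 0 ≤ R₀) (hF : ∀ p ∈ F, ‖p‖ ≤ R₀)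
    (hA : Adapted g h R₀ φ G)
    (hT : (∃ r, R₀ < r ∧ WeaklyTrapped g h r) ∨ (F = {0} ∧ R₀ = 0))
    (hm : HasMass g m) :
    minArea F g ≠ ⊤ ∧ Real.sqrt ((minArea F g).toReal / (16 * Real.pi)) ≤ m :=
  penrose hdata hflat hdec hR hF hA hT hm

end Pool.Agent.Results.MP_ede089_mp.QuasiSphericalExterior
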